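import Pool.Agent.Helper46.TTT.Spec
import Pool.Graph.R_seed8.Helper40.Num

/-!
# FIN
-/

set_option autoImplicit false

namespace Pool.Agent.Helper46.TTT.FIN

open Finset

theorem col (h1 : S_COL1) (h2 : S_COL2) (n d : ℕ) (hn : 2 ≤ n)
    (hd : 8 * (n - n / 2) ^ 2 * d ≤ 2 ^ (n - n / 2)) : Drawing n d := by
    rcases Nat.eq_zero_or_pos d with h0 | h0
    · subst h0
      exact h2 n 0 hn (fun _ => true) (fun C m hm1 hm2 => by omega)
    · obtain ⟨ω, hω⟩ := h1 n (n - n / 2) d (d * n ^ 2) (by omega) h0 hd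
      exact h2 n d hn ω hω

theorem ww (h3 : S_GEO) (h4 : S_NUM) (ε : ℝ) (hε : 0 < ε) : ∃ n0 : ℕ, ∀ n : ℕ, n0 ≤ n →
    ∀ d : ℕ, (Real.log 2 / 2 + ε) * (n : ℝ) ^ 2 / Real.log n ≤ d → WeakWin n d := by
    obtain ⟨n0, hn0⟩ := h4 ε hε
    refine ⟨max n0 2, fun n hn d hd => ?_⟩
    obtain ⟨c, r, hc, hr, hbig, hle⟩ := hn0 n (le_trans (le_max_left _ _) hn)
    have hn2 : 2 ≤ n := le_trans (le_max_right _ _) hn
    have hle2 : n * c + 2 * ((r - 1) * c) + 1 ≤ d := by
      have := hle.trans hd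
      exact_mod_cast this
    set i := (r - 1) * c with hi
    have hi1 : 1 ≤ i := by
      rw [hi]
      exact Nat.mul_pos (by omega) hc
    obtain ⟨i', hi'⟩ : ∃ i', d = n * c + i + i' := ⟨d - (n * c + i), by omega⟩
    have hii : i < i' := by omega
    rw [hi']
    apply h3 n c i i' hn2 hi1 hii
    have e1 : c + i = r * c := by
      rw [hi]
      obtain ⟨q, rfl⟩ : ∃ q, r = q + 1 := ⟨r - 1, by omega⟩
      simp only [Nat.add_sub_cancel]
      ring
    have e2 : (c + i).choose i = (r * c).choose c := by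
      rw [← Nat.choose_symm_of_eq_add (show c + i = c + i from rfl), e1]
    have e3 : (r * c).choose c ≤ (c + i').choose i' := by
      rw [← Nat.choose_symm_of_eq_add (show c + i' = c + i' from rfl), ← e1]
      exact Nat.choose_le_choose c (by omega)
    have e4 := Pool.Agent.Helper40.Num.pow_le_choose_mul r c
    calc n * 2 ^ n < 8 * r ^ (2 * c) := hbig
      _ = 8 * (r ^ c * r ^ c) := by rw [two_mul, pow_add]
      _ ≤ 8 * ((c + i).choose i * (c + i').choose i') := by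
        refine Nat.mul_le_mul_left _ (Nat.mul_le_mul ?_ ?_)
        · rw [e2]; exact e4
        · exact e4.trans e3

theorem main (h1 : S_COL1) (h2 : S_COL2) (h3 : S_GEO) (h4 : S_NUM) : S_FINAL :=
  ⟨fun n d hn hd => col h1 h2 n d hn hd, fun ε hε => ww h3 h4 ε hε⟩

end Pool.Agent.Helper46.TTT.FIN
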