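import Pool.Agent.Helper46.TTT.Spec

/-!
# GEO: a regular family of geometric lines
-/

set_option autoImplicit false

namespace Pool.Agent.Helper46.TTT.GEO

open Finset

/-- the point of the template `w` at parameter `t` -/
def pt {d n : ℕ} (w : Fin d → Fin n ⊕ Bool) (t : Fin n) : Fin d → Fin n :=
  fun j => match w j with
    | Sum.inl k => k
    | Sum.inr true => t
    | Sum.inr false => Fin.rev t

/-- templates with `i` increasing, `i'` decreasing coordinates, each value `c` times -/
def fam (d n i i' c : ℕ) : Finset (Fin d → Fin n ⊕ Bool) :=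
  univ.filter (fun w => (univ.filter (fun j => w j = Sum.inr true)).card = i ∧
    (univ.filter (fun j => w j = Sum.inr false)).card = i' ∧
    ∀ k, (univ.filter (fun j => w j = Sum.inl k)).card = c)

def pts {d n : ℕ} (w : Fin d → Fin n ⊕ Bool) : Finset (Fin d → Fin n) := univ.image (pt w)

def cover (d n i i' c : ℕ) : Finset (Fin d → Fin n) :=
  (fam d n i i' c ×ˢ (univ : Finset (Fin n))).image (fun p => pt p.1 p.2)

lemma mem_fam {d n i i' c : ℕ} {w : Fin d → Fin n ⊕ Bool} :
    w ∈ fam d n i i' c ↔ (univ.filter (fun j => w j = Sum.inr true)).card = i ∧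
    (univ.filter (fun j => w j = Sum.inr false)).card = i' ∧
    ∀ k, (univ.filter (fun j => w j = Sum.inl k)).card = c := by
  simp [fam]

lemma pts_subset {d n i i' c : ℕ} {w : Fin d → Fin n ⊕ Bool} (hw : w ∈ fam d n i i' c) :
    pts w ⊆ cover d n i i' c := by
  intro x hx
  simp only [pts, mem_image, mem_univ, true_and] at hx
  obtain ⟨t, rfl⟩ := hx
  simp only [cover, mem_image, mem_product, mem_univ, and_true, Prod.exists]
  exact ⟨w, t, hw, rfl⟩

lemma exists_inc {d n i i' c : ℕ} (hi : 0 < i) {w : Fin d → Fin n ⊕ Bool}
    (hw : w ∈ fam d n i i' c) : ∃ j, w j = Sum.inr true := by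
  rw [mem_fam] at hw
  have : 0 < (univ.filter (fun j => w j = Sum.inr true)).card := by omega
  obtain ⟨j, hj⟩ := card_pos.1 this
  exact ⟨j, by simpa using hj⟩

lemma pt_injective {d n i i' c : ℕ} (hi : 0 < i) {w : Fin d → Fin n ⊕ Bool}
    (hw : w ∈ fam d n i i' c) : Function.Injective (pt w) := by
  obtain ⟨j, hj⟩ := exists_inc hi hw
  intro t t' h
  have := congrFun h j
  simpa [pt, hj] using this

lemma card_pts {d n i i' c : ℕ} (hi : 0 < i) {w : Fin d → Fin n ⊕ Bool}
    (hw : w ∈ fam d n i i' c) : (pts w).card = n := by
  unfold pts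
  rw [card_image_of_injective _ (pt_injective hi hw)]
  simp

/-- two points determine a template of the family -/
lemma pair_unique {d n i i' c : ℕ} (hi : 0 < i) (hii : i < i') {w w' : Fin d → Fin n ⊕ Bool}
    (hw : w ∈ fam d n i i' c) (hw' : w' ∈ fam d n i i' c)
    {x y : Fin d → Fin n} (hxy : x ≠ y)
    (hx : x ∈ pts w) (hy : y ∈ pts w) (hx' : x ∈ pts w') (hy' : y ∈ pts w') : w = w' := by
  simp only [pts, mem_image, mem_univ, true_and] at hx hy hx' hy'
  obtain ⟨t, ht⟩ := hx
  obtain ⟨s, hs⟩ := hy
  obtain ⟨t', ht'⟩ := hx'
  obtain ⟨s', hs'⟩ := hy'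
  have hts : t ≠ s := fun h => hxy (by rw [← ht, ← hs, h])
  have hts' : t' ≠ s' := fun h => hxy (by rw [← ht', ← hs', h])
  have hrts : Fin.rev t ≠ Fin.rev s := fun h => hts (Fin.rev_injective h)
  have hrts' : Fin.rev t' ≠ Fin.rev s' := fun h => hts' (Fin.rev_injective h)
  have ex : ∀ j, pt w t j = pt w' t' j := fun j => by rw [ht, ht']
  have ey : ∀ j, pt w s j = pt w' s' j := fun j => by rw [hs, hs']
  -- relation between the parameters
  obtain ⟨j0, hj0⟩ := exists_inc hi hw
  have hpar : (t = t' ∧ s = s') ∨ (t = Fin.rev t' ∧ s = Fin.rev s') := by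
    have h1 := ex j0
    have h2 := ey j0
    simp only [pt, hj0] at h1 h2
    rcases h : w' j0 with k | b
    · simp only [h] at h1 h2
      exact absurd (h1.trans h2.symm) hts
    · cases b
      · simp only [h] at h1 h2
        exact Or.inr ⟨h1, h2⟩
      · simp only [h] at h1 h2
        exact Or.inl ⟨h1, h2⟩
  rcases hpar with ⟨h1, h2⟩ | ⟨h1, h2⟩
  · -- same parameters
    subst h1
    subst h2
    funext j
    have a1 := ex j
    have a2 := ey j
    rcases hwj : w j with k | b <;> rcases hwj' : w' j with k' | b'
    · simp only [pt, hwj, hwj'] at a1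
      rw [a1]
    · exfalso
      cases b' <;> simp only [pt, hwj, hwj'] at a1 a2
      · exact hrts (a1.symm.trans a2)
      · exact hts (a1.symm.trans a2)
    · exfalso
      cases b <;> simp only [pt, hwj, hwj'] at a1 a2
      · exact hrts (a1.trans a2.symm)
      · exact hts (a1.trans a2.symm)
    · cases b <;> cases b' <;> simp only [pt, hwj, hwj'] at a1 a2
      · rfl
      · exfalso
        -- rev t = t and rev s = s
        have e1 : (Fin.rev t : ℕ) = t := by rw [a1]
        have e2 : (Fin.rev s : ℕ) = s := by rw [a2]
        rw [Fin.val_rev] at e1 e2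
        exact hts (Fin.ext (by omega))
      · exfalso
        have e1 : (Fin.rev t : ℕ) = t := by rw [← a1]
        have e2 : (Fin.rev s : ℕ) = s := by rw [← a2]
        rw [Fin.val_rev] at e1 e2
        exact hts (Fin.ext (by omega))
      · rfl
  · -- reversed parameters: impossible, since `i < i'`
    exfalso
    have key : ∀ j, w j = Sum.inr false → w' j = Sum.inr true := by
      intro j hwj
      have a1 := ex j
      have a2 := ey j
      rcases hwj' : w' j with k' | b'
      · exfalso
        simp only [pt, hwj, hwj'] at a1 a2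
        exact hrts (a1.trans a2.symm)
      · cases b'
        · exfalso
          simp only [pt, hwj, hwj'] at a1 a2
          have b1 := Fin.rev_injective a1
          have b2 := Fin.rev_injective a2
          rw [h1] at b1
          rw [h2] at b2
          have e1 : (Fin.rev t' : ℕ) = t' := by rw [b1]
          have e2 : (Fin.rev s' : ℕ) = s' := by rw [b2]
          rw [Fin.val_rev] at e1 e2
          exact hts' (Fin.ext (by omega))
        · rfl
    have hle : (univ.filter (fun j => w j = Sum.inr false)).card
        ≤ (univ.filter (fun j => w' j = Sum.inr true)).card := by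
      apply card_le_card
      intro j hj
      simp only [mem_filter, mem_univ, true_and] at hj ⊢
      exact key j hj
    rw [mem_fam] at hw hw'
    rw [hw.2.1, hw'.1] at hle
    omega

/-- replace the coordinates in `I`, `I'` by the moving symbols -/
def tmpl {d n : ℕ} (x : Fin d → Fin n) (I I' : Finset (Fin d)) : Fin d → Fin n ⊕ Bool :=
  fun j => if j ∈ I then Sum.inr true else if j ∈ I' then Sum.inr false else Sum.inl (x j)

lemma tmpl_inc {d n : ℕ} {x : Fin d → Fin n} {I I' : Finset (Fin d)} {j : Fin d} :
    tmpl x I I' j = Sum.inr true ↔ j ∈ I := by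
  unfold tmpl
  split_ifs with h1 h2 <;> simp [h1]

lemma tmpl_dec {d n : ℕ} {x : Fin d → Fin n} {I I' : Finset (Fin d)} (hd : Disjoint I I')
    {j : Fin d} : tmpl x I I' j = Sum.inr false ↔ j ∈ I' := by
  unfold tmpl
  split_ifs with h1 h2
  · simp only [Sum.inr.injEq, Bool.true_eq_false, false_iff]
    exact Finset.disjoint_left.1 hd h1
  · simp [h2]
  · simp [h2]

lemma tmpl_const {d n : ℕ} {x : Fin d → Fin n} {I I' : Finset (Fin d)} {j : Fin d} {k : Fin n} :
    tmpl x I I' j = Sum.inl k ↔ x j = k ∧ j ∉ I ∧ j ∉ I' := by
  unfold tmpl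
  split_ifs with h1 h2
  · simp [h1]
  · simp [h2]
  · simp [h1, h2]

/-- the number of coordinates of a point of the line with a given value -/
lemma card_val {d n i i' c : ℕ} {w : Fin d → Fin n ⊕ Bool} (hw : w ∈ fam d n i i' c)
    (t k : Fin n) : (univ.filter (fun j => pt w t j = k)).card
      = c + (if t = k then i else 0) + (if Fin.rev t = k then i' else 0) := by
  rw [mem_fam] at hw
  obtain ⟨h1, h2, h3⟩ := hw
  have hset : univ.filter (fun j => pt w t j = k) =
      (univ.filter (fun j => w j = Sum.inl k) ∪
        (if t = k then univ.filter (fun j => w j = Sum.inr true) else ∅)) ∪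
        (if Fin.rev t = k then univ.filter (fun j => w j = Sum.inr false) else ∅) := by
    ext j
    rcases hwj : w j with k' | b
    · have hp : pt w t j = k' := by simp [pt, hwj]
      simp only [mem_filter, mem_univ, true_and, mem_union, hp, hwj, Sum.inl.injEq]
      split_ifs <;> simp [hwj]
    · cases b
      · have hp : pt w t j = Fin.rev t := by simp [pt, hwj]
        simp only [mem_filter, mem_univ, true_and, mem_union, hp, hwj]
        split_ifs with e1 e2 e2 <;> simp [hwj, e2]
      · have hp : pt w t j = t := by simp [pt, hwj]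
        simp only [mem_filter, mem_univ, true_and, mem_union, hp, hwj]
        split_ifs with e1 e2 e2 <;> simp [hwj, e1]
  rw [hset, card_union_of_disjoint, card_union_of_disjoint, h3]
  · congr 1
    · congr 1
      split_ifs
      · exact h1
      · rfl
    · split_ifs
      · exact h2
      · rfl
  · split_ifs
    · rw [Finset.disjoint_filter]
      intro j _ a1 a2
      rw [a1] at a2
      exact absurd a2 (by simp)
    · exact disjoint_empty_right _
  · rw [disjoint_union_left]
    constructor
    · split_ifs
      · rw [Finset.disjoint_filter]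
        intro j _ a1 a2
        rw [a1] at a2
        exact absurd a2 (by simp)
      · exact disjoint_empty_right _
    · split_ifs
      · rw [Finset.disjoint_filter]
        intro j _ a1 a2
        rw [a1] at a2
        exact absurd a2 (by simp)
      · exact disjoint_empty_right _
      · exact disjoint_empty_left _
      · exact disjoint_empty_left _

/-- the pairs of sets `(I, I')` -/
def prs {d n : ℕ} (x : Fin d → Fin n) (t : Fin n) (i i' : ℕ) :
    Finset ((_ : Finset (Fin d)) × Finset (Fin d)) :=
  ((univ.filter (fun j => x j = t)).powersetCard i).sigma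
    (fun I => ((univ.filter (fun j => x j = Fin.rev t)) \ I).powersetCard i')

lemma degree {d n i i' c : ℕ} (x : Fin d → Fin n) (hx : x ∈ cover d n i i' c) :
    (c + i).choose i * (c + i').choose i' ≤
      ((fam d n i i' c ×ˢ (univ : Finset (Fin n))).filter (fun p => pt p.1 p.2 = x)).card := by
  simp only [cover, mem_image, mem_product, mem_univ, and_true, Prod.exists] at hx
  obtain ⟨w, t, hw, rfl⟩ := hx
  have hval := card_val hw t
  set x := pt w t with hxdef
  -- sizes
  have hXt : c + i ≤ (univ.filter (fun j => x j = t)).card := by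
    rw [hval t, if_pos rfl]
    omega
  have hXr : ∀ I ∈ (univ.filter (fun j => x j = t)).powersetCard i,
      ((univ.filter (fun j => x j = Fin.rev t)) \ I).card = c + i' := by
    intro I hI
    rw [mem_powersetCard] at hI
    obtain ⟨hI1, hI2⟩ := hI
    by_cases hr : Fin.rev t = t
    · rw [hr, card_sdiff_of_subset hI1, hI2, hval t, if_pos rfl, if_pos hr]
      omega
    · have hdis : Disjoint (univ.filter (fun j => x j = Fin.rev t)) I := by
        rw [Finset.disjoint_left]
        intro j hj hjI
        have h1 := hI1 hjI
        simp only [mem_filter, mem_univ, true_and] at hj h1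
        exact hr (hj.symm.trans h1)
      rw [sdiff_eq_self_of_disjoint hdis, hval (Fin.rev t), if_neg (fun h => hr h.symm), if_pos rfl]
      omega
  have hcard : (c + i).choose i * (c + i').choose i' ≤ (prs x t i i').card := by
    unfold prs
    rw [card_sigma, Finset.sum_congr rfl (fun I hI => by rw [card_powersetCard, hXr I hI]),
      sum_const, card_powersetCard, smul_eq_mul]
    exact Nat.mul_le_mul_right _ (Nat.choose_le_choose i hXt)
  refine hcard.trans ?_
  have hinj : Set.InjOn (fun p : (_ : Finset (Fin d)) × Finset (Fin d) => (tmpl x p.1 p.2, t))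
      (prs x t i i' : Set ((_ : Finset (Fin d)) × Finset (Fin d))) := by
    rintro ⟨I, I'⟩ hp ⟨J, J'⟩ hq h
    simp only [Finset.mem_coe, prs, mem_sigma, mem_powersetCard] at hp hq
    have h1 : tmpl x I I' = tmpl x J J' := (Prod.ext_iff.1 h).1
    have dI : Disjoint I I' := by
      rw [Finset.disjoint_left]
      intro j a1 a2
      exact (mem_sdiff.1 (hp.2.1 a2)).2 a1
    have dJ : Disjoint J J' := by
      rw [Finset.disjoint_left]
      intro j a1 a2
      exact (mem_sdiff.1 (hq.2.1 a2)).2 a1
    have e1 : I = J := by
      ext j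
      rw [← tmpl_inc (x := x) (I := I) (I' := I'), ← tmpl_inc (x := x) (I := J) (I' := J'), h1]
    have e2 : I' = J' := by
      ext j
      rw [← tmpl_dec (x := x) dI, ← tmpl_dec (x := x) dJ, h1]
    subst e1
    subst e2
    rfl
  rw [← card_image_of_injOn hinj]
  apply card_le_card
  intro p hp
  simp only [mem_image] at hp
  obtain ⟨⟨I, I'⟩, hII, rfl⟩ := hp
  simp only [prs, mem_sigma, mem_powersetCard] at hII
  obtain ⟨⟨hI1, hI2⟩, hI'1, hI'2⟩ := hII
  have hdis : Disjoint I I' := by
    rw [Finset.disjoint_left]
    intro j a1 a2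
    exact (mem_sdiff.1 (hI'1 a2)).2 a1
  have hIx : ∀ j ∈ I, x j = t := fun j hj => by simpa using hI1 hj
  have hIx' : ∀ j ∈ I', x j = Fin.rev t := fun j hj => by
    have := (mem_sdiff.1 (hI'1 hj)).1
    simpa using this
  simp only [mem_filter, mem_product, mem_univ, and_true, mem_fam]
  refine ⟨⟨?_, ?_, ?_⟩, ?_⟩
  · rw [← hI2]
    congr 1
    ext j
    simp [tmpl_inc]
  · rw [← hI'2]
    congr 1
    ext j
    simp [tmpl_dec hdis]
  · intro k
    have hset : univ.filter (fun j => tmpl x I I' j = Sum.inl k)
        = univ.filter (fun j => x j = k) \ (I ∪ I') := by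
      ext j
      simp only [mem_filter, mem_univ, true_and, tmpl_const, mem_sdiff, mem_union, not_or]
    have hcap : (univ.filter (fun j => x j = k) ∩ (I ∪ I')).card
        = (if t = k then i else 0) + (if Fin.rev t = k then i' else 0) := by
      rw [inter_union_distrib_left, card_union_of_disjoint]
      · congr 1
        · split_ifs with h
          · rw [← hI2]
            congr 1
            ext j
            simp only [mem_inter, mem_filter, mem_univ, true_and, and_iff_right_iff_imp]
            intro hj
            rw [hIx j hj, h]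
          · rw [card_eq_zero, Finset.eq_empty_iff_forall_notMem]
            intro j hj
            simp only [mem_inter, mem_filter, mem_univ, true_and] at hj
            exact h ((hIx j hj.2).symm.trans hj.1)
        · split_ifs with h
          · rw [← hI'2]
            congr 1
            ext j
            simp only [mem_inter, mem_filter, mem_univ, true_and, and_iff_right_iff_imp]
            intro hj
            rw [hIx' j hj, h]
          · rw [card_eq_zero, Finset.eq_empty_iff_forall_notMem]
            intro j hj
            simp only [mem_inter, mem_filter, mem_univ, true_and] at hj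
            exact h ((hIx' j hj.2).symm.trans hj.1)
      · exact hdis.mono inter_subset_right inter_subset_right
    have h := card_sdiff_add_card_inter (univ.filter (fun j => x j = k)) (I ∪ I')
    rw [hcap, hval k] at h
    rw [hset]
    omega
  · funext j
    by_cases hj : j ∈ I
    · have h1 : tmpl x I I' j = Sum.inr true := tmpl_inc.2 hj
      simp only [pt, h1]
      exact (hIx j hj).symm
    · by_cases hj' : j ∈ I'
      · have h1 : tmpl x I I' j = Sum.inr false := (tmpl_dec hdis).2 hj'
        simp only [pt, h1]
        exact (hIx' j hj').symm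
      · have h1 : tmpl x I I' j = Sum.inl (x j) := tmpl_const.2 ⟨rfl, hj, hj'⟩
        simp only [pt, h1]

lemma count {d n i i' c : ℕ} :
    ((c + i).choose i * (c + i').choose i') * (cover d n i i' c).card
      ≤ (fam d n i i' c).card * n := by
  have h := Finset.mul_card_image_le_card (fam d n i i' c ×ˢ (univ : Finset (Fin n)))
    (f := fun p => pt p.1 p.2) ((c + i).choose i * (c + i').choose i') (fun x hx => degree x hx)
  rw [card_product, card_univ, Fintype.card_fin] at h
  exact h

lemma fam_nonempty {d n i i' c : ℕ} (hd : d = n * c + i + i') : (fam d n i i' c).Nonempty := by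
  have hcard : Fintype.card (((Fin n × Fin c) ⊕ Fin i) ⊕ Fin i') = Fintype.card (Fin d) := by
    simp [hd]
  let e : ((Fin n × Fin c) ⊕ Fin i) ⊕ Fin i' ≃ Fin d := Fintype.equivOfCardEq hcard
  let g : ((Fin n × Fin c) ⊕ Fin i) ⊕ Fin i' → Fin n ⊕ Bool :=
    fun s => match s with
      | Sum.inl (Sum.inl p) => Sum.inl p.1
      | Sum.inl (Sum.inr _) => Sum.inr true
      | Sum.inr _ => Sum.inr false
  refine ⟨fun j => g (e.symm j), ?_⟩
  rw [mem_fam]
  have key : ∀ o : Fin n ⊕ Bool, (univ.filter (fun j => g (e.symm j) = o)).card =
      (univ.filter (fun s => g s = o)).card := by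
    intro o
    apply card_bij (fun j _ => e.symm j)
    · intro j hj
      simpa using hj
    · intro a _ b _ h
      exact e.symm.injective h
    · intro s hs
      refine ⟨e s, ?_, ?_⟩
      · simpa using hs
      · simp
  refine ⟨?_, ?_, ?_⟩
  · rw [key]
    have : univ.filter (fun s => g s = Sum.inr true) =
        univ.image (fun a : Fin i => (Sum.inl (Sum.inr a) : ((Fin n × Fin c) ⊕ Fin i) ⊕ Fin i')) := by
      ext s
      rcases s with (p | a) | b <;> simp [g]
    rw [this, card_image_of_injective]
    · simp
    · intro a b h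
      simpa using h
  · rw [key]
    have : univ.filter (fun s => g s = Sum.inr false) =
        univ.image (fun a : Fin i' => (Sum.inr a : ((Fin n × Fin c) ⊕ Fin i) ⊕ Fin i')) := by
      ext s
      rcases s with (p | a) | b <;> simp [g]
    rw [this, card_image_of_injective]
    · simp
    · intro a b h
      simpa using h
  · intro k
    rw [key]
    have : univ.filter (fun s => g s = Sum.inl k) =
        univ.image (fun a : Fin c =>
          (Sum.inl (Sum.inl (k, a)) : ((Fin n × Fin c) ⊕ Fin i) ⊕ Fin i')) := by
      ext s
      rcases s with (⟨p1, p2⟩ | a) | b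
      · simp [g]
        constructor
        · intro h; exact h.symm
        · intro h; exact h.symm
      · simp [g]
      · simp [g]
    rw [this, card_image_of_injective]
    · simp
    · intro a b h
      simpa using h

/-- base point and direction of a template -/
def bs {d n : ℕ} [NeZero n] (w : Fin d → Fin n ⊕ Bool) (j : Fin d) : Fin n :=
  match w j with
  | Sum.inl k => k
  | Sum.inr _ => 0

def dr {d n : ℕ} (w : Fin d → Fin n ⊕ Bool) (j : Fin d) : Fin 3 :=
  match w j with
  | Sum.inl _ => 0
  | Sum.inr true => 1
  | Sum.inr false => 2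

lemma lpt_eq {d n : ℕ} [NeZero n] (w : Fin d → Fin n ⊕ Bool) (t : Fin n) :
    lpt (bs w) (dr w) t = pt w t := by
  funext j
  rcases hw : w j with k | b
  · have h1 : dr w j = 0 := by simp [dr, hw]
    have h2 : bs w j = k := by simp [bs, hw]
    have h3 : pt w t j = k := by simp [pt, hw]
    simp only [lpt, h1, h2, h3, if_true]
  · cases b
    · have h1 : dr w j = 2 := by simp [dr, hw]
      have h3 : pt w t j = Fin.rev t := by simp [pt, hw]
      simp only [lpt, h1, h3]
      rw [if_neg (by decide), if_neg (by decide)]
    · have h1 : dr w j = 1 := by simp [dr, hw]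
      have h3 : pt w t j = t := by simp [pt, hw]
      simp only [lpt, h1, h3]
      rw [if_neg (by decide)]
      simp

theorem main (hTRA : S_TRA) : S_GEO := by
  intro n c i i' hn hi hii hbig
  set d := n * c + i + i' with hd
  have : NeZero n := ⟨by omega⟩
  have : Inhabited (Fin d → Fin n) := ⟨fun _ => 0⟩
  have hcov : (cover d n i i' c).Nonempty := by
    obtain ⟨w, hw⟩ := fam_nonempty (c := c) (i := i) (i' := i') (n := n) hd
    exact ⟨pt w 0, pts_subset hw (by simp [pts])⟩
  have hcount := @count d n i i' c
  set C := (c + i).choose i * (c + i').choose i' with hC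
  have hineq2 : 2 ^ n * (cover d n i i' c).card < 8 * (fam d n i i' c).card := by
    have h1 : n * 2 ^ n * (cover d n i i' c).card < 8 * (fam d n i i' c).card * n := by
      calc n * 2 ^ n * (cover d n i i' c).card < 8 * C * (cover d n i i' c).card :=
            Nat.mul_lt_mul_of_pos_right hbig hcov.card_pos
        _ = 8 * (C * (cover d n i i' c).card) := by ring
        _ ≤ 8 * ((fam d n i i' c).card * n) := Nat.mul_le_mul_left _ hcount
        _ = 8 * (fam d n i i' c).card * n := by ring
    have h2 : n * (2 ^ n * (cover d n i i' c).card) < n * (8 * (fam d n i i' c).card) := by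
      calc n * (2 ^ n * (cover d n i i' c).card) = n * 2 ^ n * (cover d n i i' c).card := by ring
        _ < 8 * (fam d n i i' c).card * n := h1
        _ = n * (8 * (fam d n i i' c).card) := by ring
    exact Nat.lt_of_mul_lt_mul_left h2
  have hreal : ((cover d n i i' c).card : ℝ) / 8 < ((fam d n i i' c).card : ℝ) * (1/2) ^ n := by
    have h2 : ((2:ℝ) ^ n) * ((cover d n i i' c).card : ℝ) < 8 * ((fam d n i i' c).card : ℝ) := by
      exact_mod_cast hineq2
    have h3 : (0:ℝ) < 2 ^ n := by positivity
    rw [one_div, inv_pow, ← div_eq_mul_inv, div_lt_div_iff₀ (by norm_num) h3]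
    linarith
  obtain ⟨σ, hσ1, hσ2⟩ := hTRA (Fin d → Fin n) (Fin d → Fin n ⊕ Bool) (fam d n i i' c) pts
    (cover d n i i' c) n (fun a ha => pts_subset ha)
    (fun a ha b hb x y hxy h1 h2 h3 h4 => pair_unique (by omega) hii ha hb hxy h1 h2 h3 h4)
    (fun a ha => card_pts (by omega) ha) hreal
  refine ⟨σ, hσ1, fun h hf hs => ?_⟩
  obtain ⟨w, hw, hwin⟩ := hσ2 h hf hs
  refine ⟨bs w, dr w, ?_, ?_⟩
  · obtain ⟨j, hj⟩ := exists_inc (by omega) hw
    exact ⟨j, by simp [dr, hj]⟩
  · intro t
    rw [lpt_eq]
    exact hwin (pt w t) (by simp [pts])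

end Pool.Agent.Helper46.TTT.GEO
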