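import Mathlib

/-!
# Weak Wins and drawing positions on `[n]^d` (MP_0f0afc_co)
-/

set_option autoImplicit false

namespace Pool.Agent.Helper46.TTT

open Finset

/-- The point with parameter `t` on the geometric line `(a, s)` of `[n]^d`: coordinate `i` is
constant `a i` if `s i = 0`, equals `t` if `s i = 1` and is the reflection of `t` if `s i = 2`. -/
def lpt {d n : ℕ} (a : Fin d → Fin n) (s : Fin d → Fin 3) (t : Fin n) : Fin d → Fin n := fun i =>
  if s i = 0 then a i else if s i = 1 then t else Fin.rev t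

/-- A full play: the list of all points of the board in the order in which they were claimed. -/
def Full {P : Type} (h : List P) : Prop := h.Nodup ∧ ∀ p, p ∈ h

/-- The first player (moves `0, 2, 4, …`) followed the strategy `σ`. -/
def Follows {P : Type} (σ : List P → P) (h : List P) : Prop :=
  ∀ (k : ℕ) (hk : k < h.length), Even k → h[k] = σ (h.take k)

/-- The strategy never names a claimed point while the board is not full. -/
def Legal {P : Type} (σ : List P → P) : Prop :=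
  ∀ h : List P, h.Nodup → (∃ p, p ∉ h) → σ h ∉ h

/-- The first player has a Weak Win on `[n]^d`. -/
def WeakWin (n d : ℕ) : Prop :=
  ∃ σ : List (Fin d → Fin n) → (Fin d → Fin n), Legal σ ∧
    ∀ h : List (Fin d → Fin n), Full h → Follows σ h →
      ∃ (a : Fin d → Fin n) (s : Fin d → Fin 3), (∃ i, s i ≠ 0) ∧
        ∀ t : Fin n, Even (h.idxOf (lpt a s t))

/-- No monochromatic geometric line. -/
def Proper {d n : ℕ} (c : (Fin d → Fin n) → Bool) : Prop :=
  ∀ (a : Fin d → Fin n) (s : Fin d → Fin 3), (∃ i, s i ≠ 0) →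
    ∃ t t' : Fin n, c (lpt a s t) ≠ c (lpt a s t')

/-- The two colour classes differ in size by at most one. -/
def Halving {d n : ℕ} (c : (Fin d → Fin n) → Bool) : Prop :=
  |((univ.filter fun x => c x = true).card : ℤ) - ((univ.filter fun x => c x = false).card : ℤ)| ≤ 1

/-- There is a drawing position on `[n]^d`. -/
def Drawing (n d : ℕ) : Prop := ∃ c : (Fin d → Fin n) → Bool, Proper c ∧ Halving c

/-! ## parts -/

/-- The parity of `n + 1`, and the squares `(2 j + pp)^2`. -/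
def pp (n : ℕ) : ℕ := 2 * (n / 2) + 1 - n
def qq (n j : ℕ) : ℕ := (2 * j + pp n) ^ 2

/-- COL1: Lovász local lemma (`Pool.Graph.R_seed8.Helper635.LLL`, theorem `lll`, with
`p = 2^(1-k)`, `d = k^2 D`): a 2-colouring of `[0, M]` without monochromatic
`{C + m q_j : j < k}`, `1 ≤ m ≤ D`.  Each set has `k` elements and meets at most `k^2 D` others:
`(C', m')` is determined by `(j, j', m')`. -/
def S_COL1 : Prop := ∀ (n k D M : ℕ), 1 ≤ k → 1 ≤ D → 8 * k ^ 2 * D ≤ 2 ^ k →
  ∃ ω : ℕ → Bool, ∀ C m : ℕ, 1 ≤ m → m ≤ D → C + m * qq n (k - 1) ≤ M →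
    ∃ j j' : ℕ, j < k ∧ j' < k ∧ ω (C + m * qq n j) ≠ ω (C + m * qq n j')

/-- COL2: from the colouring of integers to the colouring of `[n]^d`.  With
`f t = 2 t - (n - 1)` (integer, `f (rev t) = - f t`), `S x = ∑ (f (x i))^2`, `h x` = the first
coordinate with `f (x i) ≠ 0` has `f (x i) > 0`; colour `xor (ω (S x)) (h x)`. Reflection of all
coordinates keeps `S` and changes `h` (except at the centre): halving. For a line let `i0` be the
first active coordinate.  If some `j < i0` has `f (a j) ≠ 0`, `h` is constant on the line and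
`S = C + m f(t)^2`, `t = n/2 + j` has `f t = 2 j + pp n`; otherwise `t` and `rev t` (`t` = last) have
different colours. -/
def S_COL2 : Prop := ∀ (n d : ℕ), 2 ≤ n → ∀ ω : ℕ → Bool,
  (∀ C m : ℕ, 1 ≤ m → m ≤ d → C + m * qq n (n - n / 2 - 1) ≤ d * n ^ 2 →
    ∃ j j' : ℕ, j < n - n / 2 ∧ j' < n - n / 2 ∧ ω (C + m * qq n j) ≠ ω (C + m * qq n j')) →
  Drawing n d

/-- TRA: transfer from the library theorem `Pool.Agent.Helper40.Beck.maker_wins`
(`Pool.Graph.R_seed8.Helper40.Beck`) to legal strategies and full plays.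
Strategy: `greedy F A U h` if `(U \ h.toFinset).Nonempty`, else any unclaimed point.  Given a full
play `h`, take `τ l = h[l.length]?.getD default`; by induction on `k` there is `j ≤ k` with
`h.take j <+: play σ τ k` and (`j = k` or `U ⊆ (h.take j).toFinset`); indices of first
occurrences agree. -/
def S_TRA : Prop := ∀ (P K : Type) [DecidableEq P] [Inhabited P] [DecidableEq K]
  (F : Finset K) (A : K → Finset P) (U : Finset P) (n : ℕ),
  (∀ a ∈ F, A a ⊆ U) →
  (∀ a ∈ F, ∀ b ∈ F, ∀ x y, x ≠ y → x ∈ A a → y ∈ A a → x ∈ A b → y ∈ A b → a = b) →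
  (∀ a ∈ F, (A a).card = n) → ((U.card : ℝ) / 8 < (F.card : ℝ) * (1/2) ^ n) →
  ∃ σ : List P → P, Legal σ ∧ ∀ h : List P, Full h → Follows σ h →
    ∃ a ∈ F, ∀ x ∈ A a, Even (h.idxOf x)

/-- GEO: the family of geometric lines with `i` increasing, `i'` decreasing coordinates and every
value exactly `c` times. -/
def S_GEO : Prop := ∀ (n c i i' : ℕ), 2 ≤ n → 1 ≤ i → i < i' →
  n * 2 ^ n < 8 * ((c + i).choose i * (c + i').choose i') → WeakWin n (n * c + i + i')

/-- NUM: numerics (`δ` small, `r = ⌈n^(1-δ)⌉`, `c = ⌈(n log 2 + log n) / (2 (1-δ) log n)⌉`). -/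
def S_NUM : Prop := ∀ ε : ℝ, 0 < ε → ∃ n0 : ℕ, ∀ n : ℕ, n0 ≤ n → ∃ c r : ℕ, 1 ≤ c ∧ 2 ≤ r ∧
  n * 2 ^ n < 8 * r ^ (2 * c) ∧
  ((n * c + 2 * ((r - 1) * c) + 1 : ℕ) : ℝ) ≤ (Real.log 2 / 2 + ε) * (n : ℝ) ^ 2 / Real.log n

/-- FIN: the final statement. -/
def S_FINAL : Prop :=
  (∀ n d : ℕ, 2 ≤ n → 8 * (n - n / 2) ^ 2 * d ≤ 2 ^ (n - n / 2) → Drawing n d) ∧
  (∀ ε : ℝ, 0 < ε → ∃ n0 : ℕ, ∀ n : ℕ, n0 ≤ n → ∀ d : ℕ,
    (Real.log 2 / 2 + ε) * (n : ℝ) ^ 2 / Real.log n ≤ d → WeakWin n d)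

end Pool.Agent.Helper46.TTT
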