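import Pool.Agent.Helper46.TTT.Spec
import Pool.Graph.R_seed8.Helper40.Beck

/-!
# TRA: from the list model to legal strategies and full plays
-/

set_option autoImplicit false

namespace Pool.Agent.Helper46.TTT.TRA

open Finset Pool.Agent.Helper40

open Classical in
/-- the greedy strategy, made legal -/
noncomputable def strat {P K : Type} [DecidableEq P] [Inhabited P] [DecidableEq K]
    (F : Finset K) (A : K → Finset P) (U : Finset P) (h : List P) : P :=
  if (U \ h.toFinset).Nonempty then Beck.greedy F A U h
  else if hp : ∃ p, p ∉ h then hp.choose else default

lemma strat_legal {P K : Type} [DecidableEq P] [Inhabited P] [DecidableEq K]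
    (F : Finset K) (A : K → Finset P) (U : Finset P) : Legal (strat F A U) := by
  intro h _ hex
  unfold strat
  split_ifs with h1
  · have := Beck.greedy_mem F A U h1
    rw [mem_sdiff, List.mem_toFinset] at this
    exact this.2
  · exact hex.choose_spec

/-- the prefix relation between the real play and the model play -/
lemma prefix_play {P K : Type} [DecidableEq P] [Inhabited P] [DecidableEq K]
    (F : Finset K) (A : K → Finset P) (U : Finset P) (h : List P) (hf : Full h)
    (hs : Follows (strat F A U) h) (k : ℕ) :
    ∃ j, h.take j <+: Beck.play (Beck.greedy F A U) (fun l => h.getD l.length default) k ∧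
      ((j = k ∧ k ≤ h.length) ∨ U ⊆ (h.take j).toFinset) := by
  set τ : List P → P := fun l => h.getD l.length default with hτ
  set σ := Beck.greedy F A U with hσ
  induction k with
  | zero => exact ⟨0, by simp [Beck.play], Or.inl ⟨rfl, Nat.zero_le _⟩⟩
  | succ k ih =>
    obtain ⟨j, hj, hcase⟩ := ih
    have hstep : Beck.play σ τ k <+: Beck.play σ τ (k + 1) := by
      rw [Beck.play_succ]
      exact List.prefix_append _ _
    by_cases hU : U ⊆ (h.take j).toFinset
    · exact ⟨j, hj.trans hstep, Or.inr hU⟩
    · rcases hcase with ⟨hjk, hk⟩ | hc
      · subst hjk
        have hlen := Beck.play_length σ τ j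
        have heq : h.take j = Beck.play σ τ j := by
          apply hj.eq_of_length
          rw [hlen, List.length_take]
          omega
        -- the play is not over
        have hlt : j < h.length := by
          rcases Nat.lt_or_ge j h.length with h1 | h1
          · exact h1
          · exfalso
            apply hU
            rw [List.take_of_length_le h1]
            intro p _
            rw [List.mem_toFinset]
            exact hf.2 p
        have hnext : (if Even (Beck.play σ τ j).length then σ (Beck.play σ τ j)
            else τ (Beck.play σ τ j)) = h[j] := by
          rw [hlen]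
          split_ifs with he
          · have h1 := hs j hlt he
            rw [h1, ← heq]
            unfold strat
            have hne : (U \ (h.take j).toFinset).Nonempty := by
              rw [Finset.nonempty_iff_ne_empty, ne_eq, Finset.sdiff_eq_empty_iff_subset]
              exact hU
            rw [if_pos hne]
          · have h1 : τ (Beck.play σ τ j) = h.getD (Beck.play σ τ j).length default := rfl
            rw [h1, hlen]
            exact List.getD_eq_getElem _ _ hlt
        refine ⟨j + 1, ?_, Or.inl ⟨rfl, hlt⟩⟩
        rw [Beck.play_succ, Beck.step, hnext, ← heq, List.take_append_getElem]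
      · exact absurd hc hU

theorem main : S_TRA := by
  intro P K _ _ _ F A U n hU hpair hn hbig
  refine ⟨strat F A U, strat_legal F A U, fun h hf hs => ?_⟩
  obtain ⟨a, ha, hwin⟩ := Beck.maker_wins F A U hU hpair n hn hbig
    (fun l => h.getD l.length default)
  refine ⟨a, ha, fun x hx => ?_⟩
  obtain ⟨h1, h2⟩ := hwin x hx
  obtain ⟨j, hj, hcase⟩ := prefix_play F A U h hf hs (2 * U.card)
  have hmem : x ∈ h.take j := by
    rcases hcase with ⟨hjk, hk⟩ | hc
    · have hlen := Beck.play_length (Beck.greedy F A U) (fun l => h.getD l.length default)
        (2 * U.card)
      have heq : h.take j = Beck.play (Beck.greedy F A U) (fun l => h.getD l.length default)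
          (2 * U.card) := by
        apply hj.eq_of_length
        rw [hlen, List.length_take]
        omega
      rw [heq]
      exact h1
    · have := hc (hU a ha hx)
      rwa [List.mem_toFinset] at this
  obtain ⟨l1, hl1⟩ := hj
  rw [← hl1, List.idxOf_append_of_mem hmem] at h2
  have h3 : h.idxOf x = (h.take j).idxOf x := by
    conv_lhs => rw [← List.take_append_drop j h]
    rw [List.idxOf_append_of_mem hmem]
  rw [h3]
  exact h2

end Pool.Agent.Helper46.TTT.TRA
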